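import Pool.Agent.Q46.IP.ToolsS
import Pool.Agent.Q46.SL.Additive

/-!
# Isolated patterns of `k` almost primes in the Oppermann intervals: additive equations

The problem asks for `k` primes in `[n ^ 2 - n, n ^ 2]` and in `[n ^ 2, n ^ 2 + n]`. Let `η = n ^ 2` or `η = n ^ 2 - n` and `p <
n - log² p`. For every `n` and every pattern `t` of `l = k` numbers without local obstruction we find many `x < p` such that
exactly the numbers `η + x + t_j` are almost primes and everything else near them is divisible by a prime `≤ log p`; and this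
for ALL unknowns `x` of many solutions of additive equations modulo `p`.

Let `p` be a large prime. In all boxes of volume at least `p ^ (n / 2 + 1 + ε)` the equation `F_1(x_1) + ... + F_n(x_n) = c` over the
field with `p` elements, each `F_j` a polynomial of degree `2 ≤ deg ≤ d`, an exponential function or a reciprocal, has many
solutions ALL of whose coordinates have the property.

Here the property is, with `y = η + x`: all `y + t_j` have at most `R` prime factors, all larger than `M ^ κ`, while EVERY other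
integer within distance `κ rankin(M)` of `y` has a prime factor `≤ log M`; `t` is an arbitrary pattern without local
obstruction, `|t_j| ≤ (log M) ^ B`, `η` is an arbitrary integer, `|η| ≤ M ^ K`, and `rankin(M) = log M log₂ M log₄ M / (log₃ M)
^ 2`. (`M = p`)

Design and proof: helper46 (modules `Pool.Agent.Q46.IP.*`, `Pool.Agent.Q46.SL.*`): the Rankin covering argument with holes at the
pattern gives a modulus and a residue class in which everything else near the pattern is covered by the small primes; the sieve is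
applied to the vectors of residues in this class, which are equidistributed with a power saving by bounds for exponential sums.
-/

set_option autoImplicit false

namespace Pool.Agent.Results.MP_1e9cc8_nt.IsolatedPatternsAdditive

open Finset Polynomial Filter
open Pool.Agent.Q46.SL hiding Almost
open Pool.Agent.Q46.IP (LoneS csS evI sysT adm_pair adm_one lone_tupleS lone_pairS lone_oneS)

/-- `n` is not zero and has at most `R` prime factors (counted with multiplicity), all larger than `z` -/
def Almost (z : ℝ) (R : ℕ) (n : ℤ) : Prop :=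
  n ≠ 0 ∧ n.natAbs.primeFactorsList.length ≤ R ∧ ∀ q : ℕ, q.Prime → (q : ℤ) ∣ n → z < q

/-- Rankin's function `log M log₂ M log₄ M / (log₃ M) ^ 2` (iterated logarithms) -/
noncomputable def rankin (M : ℝ) : ℝ :=
  Real.log M * Real.log (Real.log M) * Real.log (Real.log (Real.log (Real.log M))) /
    (Real.log (Real.log (Real.log M))) ^ 2

/-- modulo every prime some residue is different from all `-t_j` -/
def Adm {l : ℕ} (t : Fin l → ℤ) : Prop := ∀ q : ℕ, q.Prime → ∃ a < q, ∀ j, ¬ (q : ℤ) ∣ a + t j

/-- all `y + t_j` have at most `R` prime factors, all larger than `M ^ κ`, and every other integer `y + i` with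
`|i| ≤ κ rankin(M)` has a prime factor `≤ log M` -/
def Alone {l : ℕ} (t : Fin l → ℤ) (κ M : ℝ) (R : ℕ) (y : ℤ) : Prop :=
  (∀ j, Almost (M ^ κ) R (y + t j)) ∧
    ∀ i : ℤ, |(i : ℝ)| ≤ κ * rankin M → (∀ j, i ≠ t j) → ∃ q : ℕ, q.Prime ∧ (q : ℝ) ≤ Real.log M ∧ (q : ℤ) ∣ y + i

/-- the terms: polynomials `f(x)`, exponentials `c g^x`, reciprocals `c x⁻¹` -/
inductive Term (p : ℕ) : Type
  | poly (f : (ZMod p)[X]) : Term p
  | exp (c g : (ZMod p)ˣ) : Term p
  | inv (c : (ZMod p)ˣ) : Term p

/-- the period: `p`, or the multiplicative order of `g` -/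
noncomputable def Term.period {p : ℕ} : Term p → ℕ
  | .poly _ => p
  | .exp _ g => orderOf g
  | .inv _ => p

/-- the value at the natural number `x` (the reciprocal of `0` is `0`) -/
noncomputable def Term.value {p : ℕ} [Fact p.Prime] : Term p → ℕ → ZMod p
  | .poly f, x => f.eval (x : ZMod p)
  | .exp c g, x => (c : ZMod p) * (g : ZMod p) ^ x
  | .inv c, x => (c : ZMod p) * (x : ZMod p)⁻¹

/-- the degrees of the polynomials are between `2` and `d` -/
def Term.Ok {p : ℕ} (d : ℕ) : Term p → Prop
  | .poly f => 2 ≤ f.natDegree ∧ f.natDegree ≤ d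
  | .exp _ _ => True
  | .inv _ => True

/-- Every pattern without local obstruction occurs in complete isolation at `η + x` for ALL unknowns `x` of many solutions of additive equations, uniformly in `η`. -/
theorem result (l B K : ℕ) (n d : ℕ) (ε : ℝ) (hε : 0 < ε) (hε1 : ε ≤ 1) :
    ∃ κ : ℝ, 0 < κ ∧ ∃ R p₀ : ℕ, ∀ p : ℕ, p₀ ≤ p → ∀ [Fact p.Prime], ∀ t : Fin l → ℤ, Adm t → (∀ j, |(t j : ℝ)| ≤ Real.log p ^ B) → ∀ η : ℤ, |(η : ℝ)| ≤ (p : ℝ) ^ K → ∀ (F : Fin n → Term p), (∀ j, (F j).Ok d) → ∀ (c : ZMod p) (A N : Fin n → ℕ),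
      (∀ j, A j + N j ≤ (F j).period) → (∀ j, (p : ℝ) ^ ε ≤ N j) →
      (p : ℝ) ^ ((n : ℝ) / 2 + 1 + ε) ≤ ∏ j, (N j : ℝ) →
      ∃ G : Finset (Fin n → ℕ), ((∏ j, (N j : ℝ)) / p) * (p : ℝ) ^ (-ε) ≤ G.card ∧
        ∀ x ∈ G, (∀ j, A j ≤ x j ∧ x j < A j + N j) ∧ ∑ j, (F j).value (x j) = c ∧
          ∀ j, Alone t κ p R (η + (x j)) := by
  classical
  have hK : (1 : ℝ) ≤ d + 3 := by
    have : (0 : ℝ) ≤ d := Nat.cast_nonneg _
    linarith
  obtain ⟨κ, hκ, cc, hcc, p₀, h⟩ := Pool.Agent.Q46.SL.additive (LoneS (B + 1) K : PE l 0 l × ℤ → ℝ → ℝ → ℤ → Prop)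
    (fun k' M => M ^ (-(ε / (2 * (((n : ℕ) : ℝ) + 1)) * k'))) (fun k' _ => csS l l (B + 1) K (ε / (2 * (((n : ℕ) : ℝ) + 1))) (by positivity) k') n (d + 3) hK ε hε hε1
  obtain ⟨p₁, hp₁8, hp₁, hp₂⟩ := evI hcc hε hκ n
  refine ⟨κ, hκ, ⌊((((K + 2) * (l + 1) : ℕ)) : ℝ) / κ⌋₊, max p₁ (max p₀ (d + 1)), ?_⟩
  intro p hp _ t hadm hts η hη F hF c A N hA hN hP
  have hpr : (p₁ : ℝ) ≤ p := by exact_mod_cast (le_max_left _ _).trans hp
  have hp0 : p₀ ≤ p := ((le_max_left _ _).trans (le_max_right _ _)).trans hp
  have hpD : d < p := lt_of_lt_of_le (Nat.lt_succ_self d) (((le_max_right _ _).trans (le_max_right _ _)).trans hp)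
  have hpp : p.Prime := Fact.out
  have hs0 : 0 ≤ Real.sqrt p := Real.sqrt_nonneg _
  have hD0 : (0 : ℝ) ≤ d := Nat.cast_nonneg _
  have hper : ∀ j, (F j).period ≤ p := fun j => by
      cases hj : F j with
      | poly f => exact le_rfl
      | exp c g => exact ord_le' g
      | inv c => exact le_rfl
  have key := h p hp0 (sysT t hadm, η) (fun j => (F j).period) (fun j => (F j).value) c
    (fun j => by
      cases hj : F j with
      | poly f => exact hpp.one_lt.le
      | exp c g => exact orderOf_pos g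
      | inv c => exact hpp.one_lt.le)
    hper
    (fun j h hh t ht => by
      have hok := hF j
      cases hj : F j with
      | poly f =>
        rw [hj] at hok hh
        obtain ⟨h2, h3⟩ := hok
        have h4 := Pool.Agent.Q46.MH.SS_poly f h2 (lt_of_le_of_lt h3 hpD) h hh ht
        have h5 : (f.natDegree : ℝ) ≤ d := by exact_mod_cast h3
        refine le_trans h4 (mul_le_mul_of_nonneg_right (by linarith) hs0)
      | exp a g =>
        have h4 := Pool.Agent.Q46.MH.SS_exp a g h ht
        have h5 : (fun x : ℕ => ((a * g ^ x : (ZMod p)ˣ) : ZMod p)) = (Term.exp a g : Term p).value := by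
          funext x
          show ((a * g ^ x : (ZMod p)ˣ) : ZMod p) = (a : ZMod p) * (g : ZMod p) ^ x
          rw [Units.val_mul, Units.val_pow_eq_pow_val]
        rw [h5] at h4
        refine le_trans h4 ?_
        nlinarith
      | inv a =>
        rw [hj] at hh
        have h4 := Pool.Agent.Q46.MH.SS_inv a h hh ht
        refine le_trans h4 (mul_le_mul_of_nonneg_right (by linarith) hs0))
    A N hA hN hP
  refine ⟨_, le_trans (hp₁ _ hpr _ (div_nonneg (prod_nonneg fun _ _ => Nat.cast_nonneg _) (Nat.cast_nonneg _))) key, ?_⟩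
  intro x hx
  unfold Pool.Agent.Q46.SL.goodR Pool.Agent.Q46.MH.sol at hx
  rw [mem_filter, mem_filter] at hx
  refine ⟨fun j => mem_Ico.1 (hx.2.1 j), hx.1.2, fun j => lone_tupleS hp₁8 hpr hη hts (hx.2.2 j) ?_⟩
  have h6 : A j ≤ x j ∧ x j < A j + N j := mem_Ico.1 (hx.2.1 j)
  have h7 := hA j
  have h8 := hper j
  exact_mod_cast (by omega : x j ≤ p)

end Pool.Agent.Results.MP_1e9cc8_nt.IsolatedPatternsAdditive
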