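import Pool.Agent.Q46.SL.Tools
import Pool.Agent.Q46.SL.Several

/-!
# Any number of almost primes in both Oppermann intervals, at the residues modulo several primes

The problem asks for `k` primes in `[n ^ 2 - n, n ^ 2]` and in `[n ^ 2, n ^ 2 + n]`. Let `l = 2 k` and let the forms `α_j x +
β_j` be `n ^ 2 + (x + h_i)` and `n ^ 2 - (x + h_i)`, `i < k` (`α_j = ± 1`, `β_j = n ^ 2 ± h_i`). With `Q ≤ n / 2` all of them
are in the two intervals. For every `n` (without local obstruction) we find many `x` such that all `2 k` numbers have at most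
`R` prime factors.

Let `p_1, ..., p_r` be different primes with large product `Q`, and let `F_i` be a polynomial of degree `2 ≤ deg ≤ d` or a reciprocal
`c / x` modulo `p_i`. In all boxes above a certain size there are many integers `x` such that ALL of `x` and the least residues of
`F_i(x)` modulo `p_i`, `i = 1, ..., r`, have the property. Here the property is: all `α_j x + β_j` have at most `R` prime factors, all larger than `Q ^ κ`.

In addition the numbers avoid arbitrary residue classes, at most `m` classes `E q` modulo each prime `q ≤ z`, as long as there is no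
local obstruction; `m = 0` is the case without classes. The exponent `κ`, the number `R` and the constant `cc` do not depend on the
classes.

Design and proof: helper46 (modules `Pool.Agent.Q46.SV.*`, `Pool.Agent.Q46.SL.*`): the vectors of the residues in question are
equidistributed modulo all small integers with a power saving, by bounds for exponential sums; the fundamental lemma of the
sieve is applied to the vectors.
-/

set_option autoImplicit false

namespace Pool.Agent.Results.MP_1e9cc8_nt.SeveralPrimeModuli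

open Finset Polynomial
open Pool.Agent.Q46.SL hiding Almost

/-- `n` is not zero and has at most `R` prime factors (counted with multiplicity), all larger than `z` -/
def Almost (z : ℝ) (R : ℕ) (n : ℤ) : Prop :=
  n ≠ 0 ∧ n.natAbs.primeFactorsList.length ≤ R ∧ ∀ q : ℕ, q.Prime → (q : ℤ) ∣ n → z < q

/-- `x` is positive, all `α_j x + β_j` have at most `R` prime factors, all larger than `z`, and `x` avoids the classes `E q`, `q ≤ z` -/
def Good {l : ℕ} (α β : Fin l → ℤ) (z : ℝ) (R : ℕ) (E : ℕ → Finset ℕ) (x : ℤ) : Prop :=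
  0 < x ∧ (∀ j, Almost z R (α j * x + β j)) ∧ ∀ q : ℕ, q.Prime → (q : ℝ) ≤ z → (x % q).toNat ∉ E q

/-- `E q` has at most `m` elements, and some residue `a` outside `E q` has `q ∤ α_j a + β_j` for all `j` -/
def Adm {l : ℕ} (α β : Fin l → ℤ) (m : ℕ) (E : ℕ → Finset ℕ) : Prop :=
  ∀ q : ℕ, q.Prime → (E q).card ≤ m ∧ ∃ a < q, a ∉ E q ∧ ∀ j, ¬ (q : ℤ) ∣ α j * a + β j

/-- the polynomials and the classes -/
noncomputable def sysE {l : ℕ} (α β : Fin l → ℤ) (m : ℕ) (E : ℕ → Finset ℕ) (hE : Adm α β m E) : PE l m l where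
  f := fun j => C (α j) * X + C (β j)
  E := E
  deg := by
    have h1 : ∀ j : Fin l, (C (α j) * X + C (β j) : ℤ[X]).natDegree ≤ 1 := fun j => by compute_degree
    refine (sum_le_sum fun j _ => h1 j).trans ?_
    simp
  adm := by
    intro q hq
    obtain ⟨h1, a, ha, haE, h2⟩ := hE q hq
    refine ⟨h1, a, ha, haE, fun j => ?_⟩
    simpa using h2 j

lemma good_of {l : ℕ} {α β : Fin l → ℤ} {m B : ℕ} {E : ℕ → Finset ℕ} (hE : Adm α β m E) {κ M : ℝ} (hM : (2 : ℝ) ≤ M)
    (hh : ∀ j, |(α j : ℝ)| ≤ M ^ B ∧ |(β j : ℝ)| ≤ M ^ B) {x : ℤ} (hN : Near (B + 1) (sysE α β m E hE) κ M x) (hx : (x : ℝ) ≤ M) :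
    Good α β (M ^ κ) ⌊(((B + 1) : ℕ) + (l : ℕ) + 1 : ℝ) / κ⌋₊ E x := by
  obtain ⟨h0, h12⟩ := hN
  obtain ⟨h1, h2⟩ := h12 (by
    intro j
    have hB : (1 : ℝ) ≤ M ^ B := one_le_pow₀ (by linarith)
    refine cb_mono (cb_add (cb_CX (α j)) (cb_C (β j))) ?_
    rw [pow_succ]
    have h3 := (hh j).1
    have h4 := (hh j).2
    nlinarith) hx
  refine ⟨h0, fun j => ?_, h2⟩
  simpa [sysE, Almost, Pool.Agent.Q46.SL.Almost] using h1 j

/-- the functions modulo `q`: polynomials, and reciprocals `c x⁻¹` -/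
inductive Func (q : ℕ) : Type
  | poly (f : (ZMod q)[X]) : Func q
  | inv (c : (ZMod q)ˣ) : Func q

/-- the value (the reciprocal of `0` is `0`) -/
noncomputable def Func.value {q : ℕ} [Fact q.Prime] : Func q → ZMod q → ZMod q
  | .poly f, x => f.eval x
  | .inv c, x => (c : ZMod q) * x⁻¹

/-- the degrees of the polynomials are between `2` and `d` -/
def Func.Ok {q : ℕ} (d : ℕ) : Func q → Prop
  | .poly f => 2 ≤ f.natDegree ∧ f.natDegree ≤ d
  | .inv _ => True

/-- Systems of linear forms are almost prime for an integer `x` and for the residues of `F_i(x)` modulo several primes. -/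
theorem result (l B m : ℕ) (r d : ℕ) (ε : ℝ) (hε : 0 < ε) (hε1 : ε ≤ 1) :
    ∃ κ : ℝ, 0 < κ ∧ ∃ cc : ℝ, 0 < cc ∧ ∃ R Q₀ : ℕ,
    ∀ p : Fin r → ℕ, ∀ [∀ i, Fact (p i).Prime], Function.Injective p → Q₀ ≤ ∏ i, p i → ∀ α β : Fin l → ℤ, (∀ j, |(α j : ℝ)| ≤ ((∏ i, p i : ℕ) : ℝ) ^ B ∧ |(β j : ℝ)| ≤ ((∏ i, p i : ℕ) : ℝ) ^ B) → ∀ E : ℕ → Finset ℕ, Adm α β m E → ∀ F : ∀ i, Func (p i), (∀ i, (F i).Ok d) →
      ∀ (A₀ N₀ : ℕ) (A N : Fin r → ℕ), A₀ + N₀ ≤ ∏ i, p i → (∀ i, A i + N i ≤ p i) →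
        ((∏ i, p i : ℕ) : ℝ) ^ ε ≤ N₀ → (∀ i, ((∏ i, p i : ℕ) : ℝ) ^ ε ≤ N i) →
        (∀ i, ((∏ i, p i : ℕ) : ℝ) ^ (2 + ε) ≤ (N₀ : ℝ) * (∏ i, (N i : ℝ)) * Real.sqrt (p i)) →
        ∃ G : Finset ℕ, cc * ((N₀ : ℝ) * (∏ i, (N i : ℝ)) / ((∏ i, p i : ℕ) : ℝ)) /
            Real.log ((∏ i, p i : ℕ) : ℝ) ^ ((r + 1) * (m + l)) ≤ G.card ∧
          ∀ x ∈ G, (A₀ ≤ x ∧ x < A₀ + N₀) ∧
          (∀ i, A i ≤ ((F i).value (x : ZMod (p i))).val ∧ ((F i).value (x : ZMod (p i))).val < A i + N i) ∧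
          Good α β (((∏ i, p i : ℕ) : ℝ) ^ κ) R E x ∧
          ∀ i, Good α β (((∏ i, p i : ℕ) : ℝ) ^ κ) R E ((F i).value (x : ZMod (p i))).val := by
  have hK : (1 : ℝ) ≤ d + 3 := by
    have : (0 : ℝ) ≤ d := Nat.cast_nonneg _
    linarith
  obtain ⟨κ, hκ, cc, hcc, Q₀, h⟩ := Pool.Agent.Q46.SL.several (Near (B + 1) : PE l m l → ℝ → ℝ → ℤ → Prop)
    (lg (m + l)) (fun r _ => csN l m l (B + 1) r) r (d + 3) hK ε hε hε1
  obtain ⟨Q₁, hQ₁⟩ := ((tendsto_natCast_atTop_atTop (R := ℝ)).eventually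
    ((tendsto_rpow_atTop hε).eventually_gt_atTop (d : ℝ))).exists_forall_of_atTop
  refine ⟨κ, hκ, cc, hcc, ⌊(((B + 1) : ℕ) + (l : ℕ) + 1 : ℝ) / κ⌋₊, max 2 (max Q₀ Q₁), ?_⟩
  intro p _ hp hpQ α β ht E hE F hF A₀ N₀ A N hA0 hA hN0 hN hP
  have hpr : (2 : ℝ) ≤ ((∏ i, p i : ℕ) : ℝ) := by exact_mod_cast (le_max_left _ _).trans hpQ
  have hQ0 : Q₀ ≤ ∏ i, p i := ((le_max_left _ _).trans (le_max_right _ _)).trans hpQ
  have hQ1 : Q₁ ≤ ∏ i, p i := ((le_max_right _ _).trans (le_max_right _ _)).trans hpQ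
  have hpos : 0 < ∏ i, p i := Finset.prod_pos fun i _ => (Fact.out : (p i).Prime).pos
  obtain ⟨G, hG, hG2⟩ := h p hp hQ0 (sysE α β m E hE) (fun i => (F i).value) (by
    intro i a t ht
    have hs0 : 0 ≤ Real.sqrt (p i) := Real.sqrt_nonneg _
    have hD0 : (0 : ℝ) ≤ d := Nat.cast_nonneg _
    have hDp : d < p i := by
      have h2 := hQ₁ (∏ i, p i) hQ1
      have h3 := h2.trans_le (hN i)
      have h4 : d < N i := by exact_mod_cast h3
      have := hA i
      omega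
    have hok := hF i
    cases hj : F i with
    | poly f =>
      rw [hj] at hok
      obtain ⟨h2, h3⟩ := hok
      have h4 := Pool.Agent.Q46.MH.GG_poly f h2 (lt_of_le_of_lt h3 hDp) a t ht
      have h5 : (f.natDegree : ℝ) ≤ d := by exact_mod_cast h3
      exact le_trans h4 (mul_le_mul_of_nonneg_right (by linarith) hs0)
    | inv c =>
      exact le_trans (Pool.Agent.Q46.MH.GG_inv c a t ht) (mul_le_mul_of_nonneg_right (by linarith) hs0))
    A₀ N₀ A N hA0 hA hN0 hN hP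
  have hlog : 0 ≤ Real.log ((∏ i, p i : ℕ) : ℝ) := Real.log_natCast_nonneg _
  refine ⟨G, le_trans (cnt le_rfl (div_nonneg (mul_nonneg (Nat.cast_nonneg _)
    (prod_nonneg fun _ _ => Nat.cast_nonneg _)) (Nat.cast_nonneg _)) hlog _ _) hG, ?_⟩
  intro x hx
  obtain ⟨a1, a2, a3, a4⟩ := hG2 x hx
  refine ⟨a1, a2, good_of hE hpr ht a3 ?_, fun i => good_of hE hpr ht (a4 i) ?_⟩
  · exact_mod_cast (by omega : x ≤ ∏ i, p i)
  · have h6 : ((F i).value (x : ZMod (p i))).val < p i := ZMod.val_lt _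
    have h7 : p i ≤ ∏ i, p i := Nat.le_of_dvd hpos (dvd_prod_of_mem _ (mem_univ i))
    exact_mod_cast (by omega : ((F i).value (x : ZMod (p i))).val ≤ ∏ i, p i)

end Pool.Agent.Results.MP_1e9cc8_nt.SeveralPrimeModuli
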