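import Pool.Agent.Q46.IP.ToolsS
import Pool.Agent.Q46.SL.Sidon

/-!
# Isolated patterns of almost primes in all short intervals, in every dense Sidon set

The problem is on the primes in the intervals `[η, η + h]` with `h` larger than all powers of `log η`. For `h = n ≥ η ^ (1 /
K)`, `K` arbitrary, and for all `η` we show that every pattern without local obstruction occurs in complete isolation among the
almost primes in this interval, at places `η + x` with `x` in an arbitrary dense Sidon set.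

EVERY Sidon set `A` of vectors in `{1, ..., n} ^ r` of nearly maximal size, `|A|² ≥ n ^ r (1 - n ^ (-δ))`, has at least
`|A| n ^ (-ε)` members ALL of whose coordinates have the property (for `r = 2` this includes all Costas arrays).

Here the property is, with `y = η + x`: all `y + t_j` have at most `R` prime factors, all larger than `M ^ κ`, while EVERY other
integer within distance `κ rankin(M)` of `y` has a prime factor `≤ log M`; `t` is an arbitrary pattern without local
obstruction, `|t_j| ≤ (log M) ^ B`, `η` is an arbitrary integer, `|η| ≤ M ^ K`, and `rankin(M) = log M log₂ M log₄ M / (log₃ M)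
^ 2`. (`M = n`)

Design and proof: helper46 (modules `Pool.Agent.Q46.IP.*`, `Pool.Agent.Q46.SL.*`): the Rankin covering argument with holes at the
pattern gives a modulus and a residue class in which everything else near the pattern is covered by the small primes; the sieve is
applied to the vectors of residues in this class, which are equidistributed with a power saving by bounds for exponential sums.
-/

set_option autoImplicit false

namespace Pool.Agent.Results.MP_293bbf_nt.IsolatedPatternsSidonSets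

open Finset Polynomial Filter
open Pool.Agent.Q46.SL hiding Almost
open Pool.Agent.Q46.IP (LoneS csS evI sysT adm_pair adm_one lone_tupleS lone_pairS lone_oneS)

/-- `n` is not zero and has at most `R` prime factors (counted with multiplicity), all larger than `z` -/
def Almost (z : ℝ) (R : ℕ) (n : ℤ) : Prop :=
  n ≠ 0 ∧ n.natAbs.primeFactorsList.length ≤ R ∧ ∀ q : ℕ, q.Prime → (q : ℤ) ∣ n → z < q

/-- Rankin's function `log M log₂ M log₄ M / (log₃ M) ^ 2` (iterated logarithms) -/
noncomputable def rankin (M : ℝ) : ℝ :=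
  Real.log M * Real.log (Real.log M) * Real.log (Real.log (Real.log (Real.log M))) /
    (Real.log (Real.log (Real.log M))) ^ 2

/-- modulo every prime some residue is different from all `-t_j` -/
def Adm {l : ℕ} (t : Fin l → ℤ) : Prop := ∀ q : ℕ, q.Prime → ∃ a < q, ∀ j, ¬ (q : ℤ) ∣ a + t j

/-- all `y + t_j` have at most `R` prime factors, all larger than `M ^ κ`, and every other integer `y + i` with
`|i| ≤ κ rankin(M)` has a prime factor `≤ log M` -/
def Alone {l : ℕ} (t : Fin l → ℤ) (κ M : ℝ) (R : ℕ) (y : ℤ) : Prop :=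
  (∀ j, Almost (M ^ κ) R (y + t j)) ∧
    ∀ i : ℤ, |(i : ℝ)| ≤ κ * rankin M → (∀ j, i ≠ t j) → ∃ q : ℕ, q.Prime ∧ (q : ℝ) ≤ Real.log M ∧ (q : ℤ) ∣ y + i

/-- Sidon sets of vectors of integers -/
def IsSidon {r : ℕ} (A : Finset (Fin r → ℤ)) : Prop :=
  ∀ a ∈ A, ∀ b ∈ A, ∀ c ∈ A, ∀ d ∈ A, a + b = c + d → (a = c ∧ b = d) ∨ (a = d ∧ b = c)

/-- Every pattern without local obstruction occurs in complete isolation at `η + x` for all the coordinates `x` of many members of EVERY dense Sidon set, uniformly in `η`. -/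
theorem result (l B K : ℕ) (r : ℕ) (hr : 1 ≤ r) (δ : ℝ) (hδ : 0 < δ) (ε : ℝ) (hε : 0 < ε) :
    ∃ κ : ℝ, 0 < κ ∧ ∃ R n₀ : ℕ, ∀ n : ℕ, n₀ ≤ n → ∀ t : Fin l → ℤ, Adm t → (∀ j, |(t j : ℝ)| ≤ Real.log n ^ B) → ∀ η : ℤ, |(η : ℝ)| ≤ (n : ℝ) ^ K → 
      ∀ A : Finset (Fin r → ℤ), IsSidon A → (∀ a ∈ A, ∀ j, 1 ≤ a j ∧ a j ≤ n) →
        (n : ℝ) ^ r * (1 - (n : ℝ) ^ (-δ)) ≤ (A.card : ℝ) ^ 2 →
        ∃ G ⊆ A, (A.card : ℝ) * (n : ℝ) ^ (-ε) ≤ G.card ∧
          ∀ a ∈ G, ∀ j, Alone t κ n R (η + (a j)) := by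
  classical
  obtain ⟨κ, hκ, cc, hcc, n₀, h⟩ := Pool.Agent.Q46.SL.sidon_main (LoneS (B + 1) K : PE l 0 l × ℤ → ℝ → ℝ → ℤ → Prop)
    (fun k' M => M ^ (-(ε / (2 * (((r : ℕ) : ℝ) + 1)) * k'))) (fun k' _ => csS l l (B + 1) K (ε / (2 * (((r : ℕ) : ℝ) + 1))) (by positivity) k') r hr (min δ (1 / 4)) (lt_min hδ (by norm_num)) (min_le_right _ _)
  obtain ⟨p₁, hp₁8, hp₁, hp₂⟩ := evI hcc hε hκ r
  refine ⟨κ, hκ, ⌊((((K + 2) * (l + 1) : ℕ)) : ℝ) / κ⌋₊, max p₁ (max n₀ 1), ?_⟩
  intro n hn t hadm hts η hη A hA hAn hAc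
  have hpr : (p₁ : ℝ) ≤ n := by exact_mod_cast (le_max_left _ _).trans hn
  have hn0 : n₀ ≤ n := ((le_max_left _ _).trans (le_max_right _ _)).trans hn
  have hn1 : (1 : ℝ) ≤ n := by exact_mod_cast ((le_max_right _ _).trans (le_max_right _ _)).trans hn
  have h1 : (n : ℝ) ^ (-δ) ≤ (n : ℝ) ^ (-(min δ (1 / 4))) :=
    Real.rpow_le_rpow_of_exponent_le hn1 (by linarith [min_le_left δ (1 / 4)])
  have h2 : (n : ℝ) ^ r * (1 - (n : ℝ) ^ (-(min δ (1 / 4)))) ≤ (A.card : ℝ) ^ 2 :=
    (mul_le_mul_of_nonneg_left (by linarith) (by positivity)).trans hAc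
  have key := h n hn0 (sysT t hadm, η) A hA hAn h2
  refine ⟨A.filter (fun v => ∀ j, LoneS (B + 1) K (sysT t hadm, η) κ n (v j)), filter_subset _ _,
    le_trans (hp₁ _ hpr _ (Nat.cast_nonneg _)) key, ?_⟩
  intro a ha j
  rw [mem_filter] at ha
  exact lone_tupleS hp₁8 hpr hη hts (ha.2 j) (by exact_mod_cast (hAn a ha.1 j).2)

end Pool.Agent.Results.MP_293bbf_nt.IsolatedPatternsSidonSets
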