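import Pool.Agent.Q46.MH.Sidon

/-!
# Dense Sidon sets and Costas arrays meet record prime gaps

A set `A` of vectors is a Sidon set if the sums `a + b` of two of its members are all different.  A Sidon set in
`{1, ..., n}^r` has at most `n^(r/2) (1 + o(1))` members.  We show that EVERY Sidon set in `{1, ..., n}^r` with
`|A|² ≥ n^r (1 - n^(-δ))` has at least `|A| n^(-ε)` members ALL of whose coordinates have no prime at distance at most
`κ log n (log₂ n)² log₄ n / (log₃ n)²`.  For `r = 1` these are the dense Golomb rulers; for `r = 2` they include all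
the Costas arrays, that is the permutations `π` of `{1, ..., n}` such that the difference vectors
`(j - i, π(j) - π(i))`, `i ≠ j`, are all different: every Costas array of order `n` has at least `n^(1-ε)` dots
`(i, π(i))` such that `i` and `π(i)` are both in the middle of such long intervals without primes.

Design and proof: helper46 (module `Pool.Agent.Q46.MH.Sidon`): the exponential sums over `A` at all rational vectors with
small denominators save a power of `n` (an extension of the counting argument of Erdős, Turán and Lindström);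
the covering criterion for vectors of integers is the one of the starting repository (`Pool.Agent.Y961.JR.critJ`).
-/

set_option autoImplicit false

open Finset

namespace Pool.Agent.Results.MP_3bc45c_nt.DenseSidonSets

/-- the record scale `log x (log₂ x)² log₄ x / (log₃ x)²` -/
noncomputable def scale (x : ℝ) : ℝ :=
  Real.log x * (Real.log (Real.log x)) ^ 2 * Real.log (Real.log (Real.log (Real.log x))) /
    (Real.log (Real.log (Real.log x))) ^ 2

/-- no prime at distance at most `K` of `m` -/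
def Isolated (K : ℝ) (m : ℤ) : Prop := ∀ q : ℕ, q.Prime → K < |(q : ℝ) - m|

/-- Sidon sets of vectors of integers -/
def IsSidon {r : ℕ} (A : Finset (Fin r → ℤ)) : Prop :=
  ∀ a ∈ A, ∀ b ∈ A, ∀ c ∈ A, ∀ d ∈ A, a + b = c + d → (a = c ∧ b = d) ∨ (a = d ∧ b = c)

/-- Costas arrays: the difference vectors `(j - i, π j - π i)`, `i ≠ j`, are all different -/
def IsCostas {n : ℕ} (π : Equiv.Perm (Fin n)) : Prop :=
  ∀ i j k l : Fin n, i ≠ j → (j : ℤ) - i = (l : ℤ) - k → (π j : ℤ) - π i = (π l : ℤ) - π k → i = k ∧ j = l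

open Classical in
/-- Let `ε > 0`.

* Let `r ≥ 1` and `δ > 0`. There are `κ > 0` and `n₀` such that for all `n ≥ n₀` every Sidon set `A` of vectors of
  `{1, ..., n}^r` with `|A|² ≥ n^r (1 - n^(-δ))` has at least `|A| n^(-ε)` members such that none of their `r`
  coordinates has a prime at distance at most `κ scale n`.
* There are `κ > 0` and `n₀` such that for all `n ≥ n₀` every Costas array `π` of order `n` has at least `n^(1-ε)` dots
  `(i, π i)` such that neither `i` nor `π i` has a prime at distance at most `κ scale n`. (Rows and columns are numbered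
  from `1` to `n`.) -/
theorem result : ∀ ε : ℝ, 0 < ε →
    (∀ r : ℕ, 1 ≤ r → ∀ δ : ℝ, 0 < δ → ∃ κ : ℝ, 0 < κ ∧ ∃ n₀ : ℕ, ∀ n : ℕ, n₀ ≤ n →
      ∀ A : Finset (Fin r → ℤ), IsSidon A → (∀ a ∈ A, ∀ j, 1 ≤ a j ∧ a j ≤ n) →
        (n : ℝ) ^ r * (1 - (n : ℝ) ^ (-δ)) ≤ (A.card : ℝ) ^ 2 →
        (A.card : ℝ) * (n : ℝ) ^ (-ε) ≤ ((A.filter (fun a => ∀ j, Isolated (κ * scale n) (a j))).card : ℝ)) ∧
    (∃ κ : ℝ, 0 < κ ∧ ∃ n₀ : ℕ, ∀ n : ℕ, n₀ ≤ n → ∀ π : Equiv.Perm (Fin n), IsCostas π →
      (n : ℝ) ^ (1 - ε) ≤ ((univ.filter (fun i : Fin n =>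
        Isolated (κ * scale n) ((i : ℤ) + 1) ∧ Isolated (κ * scale n) ((π i : ℤ) + 1))).card : ℝ)) := by
  intro ε hε
  have main : ∀ r : ℕ, 1 ≤ r → ∀ δ : ℝ, 0 < δ → ∃ κ : ℝ, 0 < κ ∧ ∃ n₀ : ℕ, ∀ n : ℕ, n₀ ≤ n →
      ∀ A : Finset (Fin r → ℤ), IsSidon A → (∀ a ∈ A, ∀ j, 1 ≤ a j ∧ a j ≤ n) →
        (n : ℝ) ^ r * (1 - (n : ℝ) ^ (-δ)) ≤ (A.card : ℝ) ^ 2 →
        (A.card : ℝ) * (n : ℝ) ^ (-ε) ≤
          ((A.filter (fun a => ∀ j, Isolated (κ * scale n) (a j))).card : ℝ) := by
    intro r hr δ hδ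
    obtain ⟨κ, hκ, n₀, h⟩ := Pool.Agent.Q46.MH.sidon_main r hr (min δ (1 / 4)) (lt_min hδ (by norm_num))
      (min_le_right _ _) ε hε
    refine ⟨κ, hκ, max n₀ 1, ?_⟩
    intro n hn A hA hAn hAc
    have hn1 : (1 : ℝ) ≤ n := by exact_mod_cast (le_max_right _ _).trans hn
    have h1 : (n : ℝ) ^ (-δ) ≤ (n : ℝ) ^ (-(min δ (1 / 4))) :=
      Real.rpow_le_rpow_of_exponent_le hn1 (by linarith [min_le_left δ (1 / 4)])
    have h2 : (n : ℝ) ^ r * (1 - (n : ℝ) ^ (-(min δ (1 / 4)))) ≤ (A.card : ℝ) ^ 2 :=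
      (mul_le_mul_of_nonneg_left (by linarith) (by positivity)).trans hAc
    refine (h n ((le_max_left _ _).trans hn) A hA hAn h2).trans (le_of_eq ?_)
    have h4 : A.filter (fun a => Pool.Agent.Q46.MH.Iso (κ * Pool.Agent.W147.PS.ff n) a) =
        A.filter (fun a => ∀ j, Isolated (κ * scale n) (a j)) := filter_congr fun a _ => Iff.rfl
    rw [h4]
  refine ⟨main, ?_⟩
  obtain ⟨κ, hκ, n₀, h⟩ := main 2 (by norm_num) (1 / 4) (by norm_num)
  refine ⟨κ, hκ, max n₀ 1, ?_⟩
  intro n hn π hπ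
  have hn1 : (1 : ℝ) ≤ n := by exact_mod_cast (le_max_right _ _).trans hn
  have hn0 : (0 : ℝ) < n := by linarith
  set v : Fin n → Fin 2 → ℤ := fun i => ![(i : ℤ) + 1, (π i : ℤ) + 1] with hv
  have hv0 : ∀ i, v i 0 = (i : ℤ) + 1 := fun i => rfl
  have hv1 : ∀ i, v i 1 = (π i : ℤ) + 1 := fun i => rfl
  have hinj : Function.Injective v := by
    intro i j hij
    have h1 := congrFun hij 0
    rw [hv0, hv0] at h1
    apply Fin.ext
    omega
  have hA : IsSidon (univ.image v) := by
    intro a ha b hb c hc d hd habcd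
    rw [mem_image] at ha hb hc hd
    obtain ⟨i, _, rfl⟩ := ha
    obtain ⟨j, _, rfl⟩ := hb
    obtain ⟨k, _, rfl⟩ := hc
    obtain ⟨l, _, rfl⟩ := hd
    have h1 := congrFun habcd 0
    have h2 := congrFun habcd 1
    rw [Pi.add_apply, Pi.add_apply, hv0, hv0, hv0, hv0] at h1
    rw [Pi.add_apply, Pi.add_apply, hv1, hv1, hv1, hv1] at h2
    by_cases hik : k = i
    · left
      subst hik
      have : j = l := Fin.ext (by omega)
      rw [this]
      exact ⟨rfl, rfl⟩
    · right
      have h3 := hπ k i j l hik (by omega) (by omega)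
      rw [h3.1, h3.2]
      exact ⟨rfl, rfl⟩
  have hcard : (univ.image v).card = n := by
    rw [card_image_of_injective _ hinj, card_univ, Fintype.card_fin]
  have key := h n ((le_max_left _ _).trans hn) (univ.image v) hA (by
    intro a ha j
    rw [mem_image] at ha
    obtain ⟨i, _, rfl⟩ := ha
    have h1 := i.2
    have h2 := (π i).2
    fin_cases j
    · show 1 ≤ v i 0 ∧ v i 0 ≤ n
      rw [hv0]
      omega
    · show 1 ≤ v i 1 ∧ v i 1 ≤ n
      rw [hv1]
      omega) (by
    rw [hcard]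
    have : 0 ≤ (n : ℝ) ^ (-(1 / 4 : ℝ)) := Real.rpow_nonneg hn0.le _
    nlinarith [sq_nonneg (n : ℝ)])
  rw [hcard] at key
  have h3 : (n : ℝ) ^ (1 - ε) = n * (n : ℝ) ^ (-ε) := by
    rw [sub_eq_add_neg, Real.rpow_add hn0, Real.rpow_one]
  rw [h3]
  refine key.trans (le_of_eq ?_)
  rw [filter_image, card_image_of_injective _ hinj]
  congr 2
  ext i
  rw [mem_filter, mem_filter, Fin.forall_fin_two, hv0, hv1]

end Pool.Agent.Results.MP_3bc45c_nt.DenseSidonSets
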