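import Pool.Agent.Q46.MH.LogInv

/-!
# A residue, its inverse and its discrete logarithm are simultaneously in record prime gaps

Let `g` be a nonzero residue modulo the prime `p` (for instance a primitive root), `u` and `v` nonzero residues.  For
many exponents `n` the THREE integers `n`, `u g^n mod p` and `v g^(-n) mod p` are all in the middle of intervals without
primes of length `κ log p (log₂ p)² log₄ p / (log₃ p)²`; with `u = v = 1`: the discrete logarithm of a residue, the
residue, and its inverse.  This holds in all boxes whose volume is at least `p^(11/4 + ε)` (`g` a primitive root).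

Design and proof: helper46 (modules `Pool.Agent.Q46.MH.*`), on the covering criterion for vectors of integers of the
starting repository (`Pool.Agent.Y961.JR.critJ`).  The Kloosterman sums with a multiplicative twist are bounded with
Kloosterman's fourth moment method.
-/

set_option autoImplicit false

namespace Pool.Agent.Results.MP_3bc45c_nt.InverseAndLogarithm

/-- the record scale `log x (log₂ x)² log₄ x / (log₃ x)²` -/
noncomputable def scale (x : ℝ) : ℝ :=
  Real.log x * (Real.log (Real.log x)) ^ 2 * Real.log (Real.log (Real.log (Real.log x))) /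
    (Real.log (Real.log (Real.log x))) ^ 2

/-- no prime at distance at most `K` of `n` -/
def Isolated (K : ℝ) (n : ℕ) : Prop := ∀ q : ℕ, q.Prime → K < |(q : ℝ) - n|

/-- Let `0 < ε ≤ 1`. There are `κ > 0` and `p₀` such that for all primes `p ≥ p₀`, all nonzero residues `g`, `u`, `v`
modulo `p`, `T` the order of `g`, and all intervals `[A 0, A 0 + N 0)` in `[0, T)` and `[A 1, A 1 + N 1)`,
`[A 2, A 2 + N 2)` in `[0, p)` with lengths at least `p^ε` and with `(N 0 * N 1 * N 2)^4 ≥ p^(10 + ε) T`, there are at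
least `N 0 * N 1 * N 2 * p^(-2-ε)` integers `n` such that `n`, the least residue of `u g^n` and the least residue of
`v g^(-n)` lie in the three intervals, and none of the three has a prime at distance at most `κ scale p`. -/
theorem result : ∀ ε : ℝ, 0 < ε → ε ≤ 1 → ∃ κ : ℝ, 0 < κ ∧ ∃ p₀ : ℕ,
    ∀ p : ℕ, p₀ ≤ p → ∀ [Fact p.Prime], ∀ (g u v : (ZMod p)ˣ) (A N : Fin 3 → ℕ),
      A 0 + N 0 ≤ orderOf g → A 1 + N 1 ≤ p → A 2 + N 2 ≤ p → (∀ j, (p : ℝ) ^ ε ≤ N j) →
      (p : ℝ) ^ (10 + ε) * ((orderOf g : ℕ) : ℝ) ≤ ((N 0 : ℝ) * N 1 * N 2) ^ 4 →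
        ∃ G : Finset ℕ, (N 0 : ℝ) * N 1 * N 2 * (p : ℝ) ^ (-(2 + ε)) ≤ G.card ∧ ∀ n ∈ G,
          (A 0 ≤ n ∧ n < A 0 + N 0) ∧
          (A 1 ≤ ((u * g ^ n : (ZMod p)ˣ) : ZMod p).val ∧ ((u * g ^ n : (ZMod p)ˣ) : ZMod p).val < A 1 + N 1) ∧
          (A 2 ≤ ((v * (g ^ n)⁻¹ : (ZMod p)ˣ) : ZMod p).val ∧ ((v * (g ^ n)⁻¹ : (ZMod p)ˣ) : ZMod p).val < A 2 + N 2) ∧
          Isolated (κ * scale p) n ∧ Isolated (κ * scale p) ((u * g ^ n : (ZMod p)ˣ) : ZMod p).val ∧
          Isolated (κ * scale p) ((v * (g ^ n)⁻¹ : (ZMod p)ˣ) : ZMod p).val := by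
  intro ε h0 h1
  exact Pool.Agent.Q46.MH.loginv ε h0 h1

end Pool.Agent.Results.MP_3bc45c_nt.InverseAndLogarithm
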