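import Pool.Agent.Q46.MH.Fermat

/-!
# Record prime gaps around an integer and around its Fermat quotient

For a prime `p` and an integer `n` prime to `p` the Fermat quotient `q_p(n)` is the least residue of `(n^(p-1) - 1) / p`
modulo `p`.  For every `0 < ε ≤ 1` there is `κ > 0` such that for all large primes `p` and all intervals `I` in `[0, p²)`, `J`
in `[0, p)` with `|I| |J| ≥ p^(2 + ε)` at least `|I| |J| p^(-1 - ε)` of the `n ∈ I` prime to `p` have their Fermat quotient in
`J` and no prime at distance at most `κ f(p²)` of `n` or of `q_p(n)`, `f(x) = log x (log₂ x)² log₄ x / (log₃ x)²`.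

Design and proof: helper46 (modules `Pool.Agent.Q46.MH.*`: the completion of sums over boxes; the sums over the graph of the
Fermat quotient are bounded by `p` with the help of their behaviour under multiplication of the frequency by units), on the
covering criterion for vectors of integers of the starting repository (`Pool.Agent.Y961.JR.critJ`).
-/

set_option autoImplicit false

namespace Pool.Agent.Results.MP_69be96_nt.FermatQuotients

/-- the record scale `log x (log₂ x)² log₄ x / (log₃ x)²` -/
noncomputable def scale (x : ℝ) : ℝ :=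
  Real.log x * (Real.log (Real.log x)) ^ 2 * Real.log (Real.log (Real.log (Real.log x))) /
    (Real.log (Real.log (Real.log x))) ^ 2

/-- no prime at distance at most `K` of `n` -/
def Isolated (K : ℝ) (n : ℕ) : Prop := ∀ q : ℕ, q.Prime → K < |(q : ℝ) - n|

/-- the Fermat quotient: the least residue of `(n^(p-1) - 1) / p` modulo `p` -/
def fermatQuotient (p n : ℕ) : ℕ := (n ^ (p - 1) - 1) / p % p

/-- **Isolated integers with isolated Fermat quotients.** For all large primes `p` and all intervals `[A, A + M)` in
`[0, p²)` and `[B, B + N)` in `[0, p)` with `M N ≥ p^(2 + ε)`, at least `M N p^(-1 - ε)` of the integers `n` in `[A, A + M)`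
are prime to `p`, have their Fermat quotient in `[B, B + N)` and no prime at distance at most `κ scale(p²)` of `n` or of
the Fermat quotient. -/
theorem result : ∀ ε : ℝ, 0 < ε → ε ≤ 1 → ∃ κ : ℝ, 0 < κ ∧ ∃ p₀ : ℕ, ∀ p : ℕ, p₀ ≤ p → p.Prime →
    ∀ A M B N : ℕ, A + M ≤ p ^ 2 → B + N ≤ p → (p : ℝ) ^ (2 + ε) ≤ (M : ℝ) * N →
      ∃ G : Finset ℕ, (M : ℝ) * N / p * (p : ℝ) ^ (-ε) ≤ G.card ∧
        ∀ n ∈ G, (A ≤ n ∧ n < A + M) ∧ ¬ p ∣ n ∧ (B ≤ fermatQuotient p n ∧ fermatQuotient p n < B + N) ∧
          Isolated (κ * scale ((p : ℝ) ^ 2)) n ∧ Isolated (κ * scale ((p : ℝ) ^ 2)) (fermatQuotient p n) :=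
  fun ε h0 h1 => Pool.Agent.Q46.MH.fermat_quotients ε h0 h1

end Pool.Agent.Results.MP_69be96_nt.FermatQuotients
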