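import Pool.Agent.Q20.RG.Primitive

/-!
# Record prime gaps around primitive roots and their powers

Let `r ≥ 1`, let `k_1, …, k_r` be distinct positive integers and let `0 < ε ≤ 1`.  There is `κ > 0` such
that for all large primes `p` and all boxes `∏ [A_j, A_j + N_j)` in `[0, p)^r` with
`∏ N_j ≥ p^(r - 1/2 + ε)` at least `(∏ N_j) p^(1 - r - ε)` primitive roots `g` modulo `p` have the
following property: the residues of ALL the powers `g^(k_1), …, g^(k_r)` modulo `p` lie in the prescribed
intervals and are isolated on the record scale, that is, no prime lies at distance at most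
`κ log p (log₂ p)² log₄ p / (log₃ p)²` of any of them.

For example (`r = 1`, `k = 1`) every interval of length `p^(1/2 + ε)` in `[0, p)` contains a primitive root
modulo `p` (a number of multiplicative order exactly `p - 1`) in the middle of a record prime gap, and
(`r = 2`, `k = 1, 2`) there are primitive roots `g` such that `g` and the least residue of `g^2` both are
in the middle of record prime gaps.

Proof (`Pool.Agent.Q20.RG.Primitive`): sums of additive characters of `∑ h_j g^(k_j)` over the primitive
roots `g` are expressed by sums over `d`-th powers, `d ∣ p - 1`, and bounded by Weil's bound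
(`Pool.Agent.Y951.WP.weil_le` of the starting library); completion in `r` coordinates; helper46's form
(`Pool.Agent.Q46.MH.crit_many`) of the covering criterion for vectors of integers of the starting
repository (`Pool.Agent.Y961.JR.critJ`).
-/

set_option autoImplicit false

namespace Pool.Agent.Results.MP_69be96_nt.PowersOfPrimitiveRoots

/-- the record scale `log x (log₂ x)² log₄ x / (log₃ x)²` -/
noncomputable def scale (x : ℝ) : ℝ :=
  Real.log x * (Real.log (Real.log x)) ^ 2 * Real.log (Real.log (Real.log (Real.log x))) /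
    (Real.log (Real.log (Real.log x))) ^ 2

/-- no prime at distance at most `K` of `n` -/
def Isolated (K : ℝ) (n : ℕ) : Prop := ∀ q : ℕ, q.Prime → K < |(q : ℝ) - n|

/-- **Isolated powers of primitive roots.** For `r ≥ 1` distinct positive exponents `k j`, all large primes
`p` and all boxes of intervals `[A j, A j + N j)` in `[0, p)` with `∏ N j ≥ p^(r - 1/2 + ε)`, at least
`(∏ N j) p^(1 - r - ε)` natural numbers `g < p` of multiplicative order `p - 1` modulo `p` have all the
residues `g^(k j) % p` in the prescribed intervals and isolated on the record scale. -/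
theorem result : ∀ r : ℕ, 1 ≤ r → ∀ k : Fin r → ℕ, Function.Injective k → (∀ j, 0 < k j) →
    ∀ ε : ℝ, 0 < ε → ε ≤ 1 →
    ∃ κ : ℝ, 0 < κ ∧ ∃ p₀ : ℕ, ∀ p : ℕ, p₀ ≤ p → p.Prime →
    ∀ A N : Fin r → ℕ, (∀ j, A j + N j ≤ p) →
      (p : ℝ) ^ ((r : ℝ) - 1 / 2 + ε) ≤ ∏ j, (N j : ℝ) →
      ∃ G : Finset ℕ, (∏ j, (N j : ℝ)) * (p : ℝ) ^ (1 - (r : ℝ) - ε) ≤ G.card ∧
        ∀ g ∈ G, g < p ∧ orderOf (g : ZMod p) = p - 1 ∧
          ∀ j, (A j ≤ g ^ k j % p ∧ g ^ k j % p < A j + N j) ∧
            Isolated (κ * scale p) (g ^ k j % p) :=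
  fun r hr k hk hk0 ε h0 h1 => Pool.Agent.Q20.RG.primmain r hr k hk hk0 ε h0 h1

end Pool.Agent.Results.MP_69be96_nt.PowersOfPrimitiveRoots
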