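import Pool.Agent.Q46.PV.Inst
import Pool.Agent.Q46.GQ.Config
import Pool.Agent.Q46.GQ.Dist

/-!
# Long strings of composite values of a polynomial around the distances of points over prime fields

Let `f` be an irreducible polynomial with integer coefficients and positive leading coefficient, for instance
`f = X^2 + 1`.  Let `p` be a large prime and `E_1, ..., E_k` ARBITRARY sets of vectors over the field with `p` elements
with `|E_i| |E_j| ≥ p^(d + ε)`.  For many `(x_1, ..., x_k)` in `E_1 × ... × E_k` all the values `f(m)` at the integers `m`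
at distance at most `κ log p log log p` of ANY of the `k (k - 1) / 2` distances (least residues) are composite; the
distances may be prescribed up to short intervals.  For one pair of sets the same holds for dot products with arbitrary
additional functions of the two vectors.

Design and proof: helper46 (modules `Pool.Agent.Q46.PV.*`: the covering criterion for vectors of integers and values of
polynomials, on the covering theorem `Pool.Agent.H474R2.PG` of the starting repository; `Pool.Agent.Q46.GQ.*`).
-/

set_option autoImplicit false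

open Polynomial Finset

namespace Pool.Agent.Results.MP_f1a94e_nt.PointConfigurations

/-- every value of `f` at an integer at distance at most `K` of `x` has a prime factor smaller than the value (in
particular none of these values is a prime) -/
def Composite (f : ℤ[X]) (K : ℝ) (x : ℤ) : Prop :=
  ∀ k : ℤ, |(k : ℝ)| ≤ K → ∃ q : ℕ, q.Prime ∧ (q : ℤ) ∣ f.eval (x + k) ∧ (q : ℤ) < f.eval (x + k)

/-- the length `log x log log x` -/
noncomputable def len (x : ℝ) : ℝ := Real.log x * Real.log (Real.log x)

/-- the pairs `i < j` of indices -/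
abbrev Pairs (k : ℕ) : Type := {z : Fin k × Fin k // z.1 < z.2}

/-- the distance of two vectors, an element of the field with `p` elements -/
def dist {p d : ℕ} (x y : Fin d → ZMod p) : ZMod p := ∑ l, (x l - y l) ^ 2

open Classical in
/-- the number of `X` in `E_1 × ... × E_k` such that for all `i < j` the least residue `y` of the distance of `X_i` and
`X_j` satisfies `u i j ≤ y < u i j + N i j` and the values of `f` near `y` are composite -/
noncomputable def hits (f : ℤ[X]) {p k d : ℕ} (E : Fin k → Finset (Fin d → ZMod p)) (u N : Pairs k → ℕ) (K : ℝ) : ℕ :=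
  ((Fintype.piFinset E).filter (fun X => ∀ z : Pairs k,
    (u z ≤ (dist (X z.1.1) (X z.1.2)).val ∧ (dist (X z.1.1) (X z.1.2)).val < u z + N z) ∧
      Composite f K (dist (X z.1.1) (X z.1.2)).val)).card

open Classical in
/-- the number of pairs `z` in `S` for which the least residue `y` of `F z` satisfies `u ≤ y < u + N` and the values of
`f` near `y` are composite -/
noncomputable def hits2 (f : ℤ[X]) {p : ℕ} {V : Type} (S : Finset (V × V)) (F : V × V → ZMod p) (u N : ℕ) (K : ℝ) : ℕ :=
  (S.filter (fun z => (u ≤ (F z).val ∧ (F z).val < u + N) ∧ Composite f K (F z).val)).card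

/-- Let `f` be irreducible of positive degree with positive leading coefficient and `0 < ε ≤ 1`.

1. Let `k ≥ 2`. There are `κ > 0` and `p₀` such that for all primes `p ≥ p₀`, all `d`, all sets `E_1, ..., E_k` of vectors
with `d` coordinates in the field with `p` elements, and all intervals `[u z, u z + N z)` in `[0, p)`, one for each pair
`z = (i, j)` with `i < j`, with `N z ≥ p^ε` and, for `W = ∏_z (N z / p)`, `W² |E_i| |E_j| ≥ p^(d + ε)` for all `i < j`: at
least `W |E_1| ... |E_k| p^(-ε)` of the `X` in `E_1 × ... × E_k` are such that for all `i < j` the least residue `y` of the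
distance of `X_i` and `X_j` lies in `[u z, u z + N z)` and `f(m)` is composite for all integers `m` with
`|m - y| ≤ κ log p log log p`.

2. There are `κ > 0` and `p₀` such that for all primes `p ≥ p₀`, all `d`, all sets `A`, `B` of vectors with `d` coordinates,
all functions `g`, `h` on the vectors, all `c ≠ 0` and all intervals `[u, u + N)` in `[0, p)` with `N ≥ p^ε` and
`N² |A| |B| ≥ p^(d + 2 + ε)` at least `(N / p) |A| |B| p^(-ε)` pairs `(a, b)` in `A × B` are such that the least residue `y`
of `c a·b + g(a) + h(b)` lies in `[u, u + N)` and has this property. -/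
theorem result : ∀ f : ℤ[X], Irreducible f → 0 < f.natDegree → 0 < f.leadingCoeff → ∀ ε : ℝ, 0 < ε → ε ≤ 1 →
    (∀ k : ℕ, 2 ≤ k → ∃ κ : ℝ, 0 < κ ∧ ∃ p₀ : ℕ, ∀ p : ℕ, p₀ ≤ p → p.Prime →
      ∀ (d : ℕ) (E : Fin k → Finset (Fin d → ZMod p)) (u N : Pairs k → ℕ),
      (∀ z, u z + N z ≤ p) → (∀ z, (p : ℝ) ^ ε ≤ N z) →
      (∀ z : Pairs k, (p : ℝ) ^ (d + ε) ≤
        (∏ w : Pairs k, (N w : ℝ) / p) ^ 2 * (E z.1.1).card * (E z.1.2).card) →
      (∏ w : Pairs k, (N w : ℝ) / p) * (∏ i, ((E i).card : ℝ)) * (p : ℝ) ^ (-ε) ≤ hits f E u N (κ * len p)) ∧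
    (∃ κ : ℝ, 0 < κ ∧ ∃ p₀ : ℕ, ∀ p : ℕ, p₀ ≤ p → p.Prime →
      ∀ (d : ℕ) (A B : Finset (Fin d → ZMod p)) (g h : (Fin d → ZMod p) → ZMod p) (c : ZMod p), c ≠ 0 →
      ∀ u N : ℕ, u + N ≤ p → (p : ℝ) ^ ε ≤ N → (p : ℝ) ^ (d + 2 + ε) ≤ (N : ℝ) ^ 2 * A.card * B.card →
        (N : ℝ) * A.card * B.card / p * (p : ℝ) ^ (-ε) ≤
          hits2 f (A ×ˢ B) (fun z => c * ∑ i, z.1 i * z.2 i + g z.1 + h z.2) u N (κ * len p)) := by
  classical
  intro f hf hd hl ε h0 h1
  refine ⟨?_, ?_⟩
  · intro k hk
    exact Pool.Agent.Q46.GQ.configs (Pool.Agent.Q46.PV.QP f) (Pool.Agent.Q46.PV.CH_QP f hf hd hl) k hk ε h0 h1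
  · obtain ⟨κ, hκ, p₀, h⟩ := Pool.Agent.Q46.GQ.bilinear (Pool.Agent.Q46.PV.QP f)
      (Pool.Agent.Q46.PV.CH_QP f hf hd hl) ε h0 h1
    refine ⟨κ, hκ, p₀, ?_⟩
    intro p hp hpp d A B g g' c hc u N hu hN hAB
    have key := h p hp hpp d A B g g' c hc u N hu hN hAB
    refine key.trans (le_of_eq ?_)
    unfold hits2 Pool.Agent.Q46.GQ.good1
    congr 2
    apply filter_congr
    intro z _
    rw [mem_Ico]
    rfl

end Pool.Agent.Results.MP_f1a94e_nt.PointConfigurations
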