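import Pool.Agent.Q46.MH.Several

/-!
# An integer and its images modulo several primes are simultaneously in record prime gaps

Let `p_1, ..., p_r` be different primes, `Q` their product, and let `F_i` be a polynomial of degree between `2` and `D`
over the field with `p_i` elements, or a reciprocal `c x⁻¹` modulo `p_i`.  For many integers `0 ≤ n < Q` ALL the
`r + 1` integers `n, F_1(n) mod p_1, ..., F_r(n) mod p_r` are in the middle of intervals without primes of length
`κ log Q (log₂ Q)² log₄ Q / (log₃ Q)²`, also if these integers are required to be in prescribed intervals.  Examples: `n`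
and its inverses modulo several primes; `n` and the residues of `n²` modulo several primes.

Design and proof: helper46 (modules `Pool.Agent.Q46.MH.*`), on the covering criterion for vectors of integers of the
starting repository (`Pool.Agent.Y961.JR.critJ`) and its bounds of Weil for sums of polynomials and Kloosterman sums.
-/

set_option autoImplicit false

open Finset Polynomial

namespace Pool.Agent.Results.MP_f9960f_nt.SeveralPrimeModuli

/-- the record scale `log x (log₂ x)² log₄ x / (log₃ x)²` -/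
noncomputable def scale (x : ℝ) : ℝ :=
  Real.log x * (Real.log (Real.log x)) ^ 2 * Real.log (Real.log (Real.log (Real.log x))) /
    (Real.log (Real.log (Real.log x))) ^ 2

/-- no prime at distance at most `K` of `n` -/
def Isolated (K : ℝ) (n : ℕ) : Prop := ∀ q : ℕ, q.Prime → K < |(q : ℝ) - n|

/-- the functions modulo `q`: polynomials, and reciprocals `c x⁻¹` -/
inductive Func (q : ℕ) : Type
  | poly (f : (ZMod q)[X]) : Func q
  | inv (c : (ZMod q)ˣ) : Func q

variable {q : ℕ}

/-- the value (the reciprocal of `0` is `0`) -/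
noncomputable def Func.value [Fact q.Prime] : Func q → ZMod q → ZMod q
  | .poly f, x => f.eval x
  | .inv c, x => (c : ZMod q) * x⁻¹

/-- the degrees of the polynomials are between `2` and `D` -/
def Func.Ok (D : ℕ) : Func q → Prop
  | .poly f => 2 ≤ f.natDegree ∧ f.natDegree ≤ D
  | .inv _ => True

/-- Let `r`, `D` be natural numbers and `0 < ε ≤ 1`. There are `κ > 0` and `Q₀` such that for all different primes
`p_1, ..., p_r` with product `Q ≥ Q₀`, all functions `F_i` modulo `p_i` (polynomials of degree between `2` and `D`,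
reciprocals), and all intervals `[A₀, A₀ + N₀)` in `[0, Q)` and `[A_i, A_i + N_i)` in `[0, p_i)` of lengths at least
`Q^ε` with `N₀ N_1 ... N_r √p_i ≥ Q^(2+ε)` for all `i`: there are at least `N₀ N_1 ... N_r Q^(-1-ε)` integers `n` in
`[A₀, A₀ + N₀)` such that the least residue of `F_i(n)` modulo `p_i` is in `[A_i, A_i + N_i)` for all `i`, and such that
neither `n` nor any of these `r` least residues has a prime at distance at most `κ scale Q`. -/
theorem result : ∀ (r D : ℕ) (ε : ℝ), 0 < ε → ε ≤ 1 → ∃ κ : ℝ, 0 < κ ∧ ∃ Q₀ : ℕ,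
    ∀ p : Fin r → ℕ, ∀ [∀ i, Fact (p i).Prime], Function.Injective p → Q₀ ≤ ∏ i, p i →
      ∀ F : ∀ i, Func (p i), (∀ i, (F i).Ok D) →
      ∀ (A₀ N₀ : ℕ) (A N : Fin r → ℕ), A₀ + N₀ ≤ ∏ i, p i → (∀ i, A i + N i ≤ p i) →
        ((∏ i, p i : ℕ) : ℝ) ^ ε ≤ N₀ → (∀ i, ((∏ i, p i : ℕ) : ℝ) ^ ε ≤ N i) →
        (∀ i, ((∏ i, p i : ℕ) : ℝ) ^ (2 + ε) ≤ (N₀ : ℝ) * (∏ i, (N i : ℝ)) * Real.sqrt (p i)) →
        ∃ G : Finset ℕ, (N₀ : ℝ) * (∏ i, (N i : ℝ)) * ((∏ i, p i : ℕ) : ℝ) ^ (-(1 + ε)) ≤ G.card ∧ ∀ n ∈ G,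
          (A₀ ≤ n ∧ n < A₀ + N₀) ∧
          (∀ i, A i ≤ ((F i).value (n : ZMod (p i))).val ∧ ((F i).value (n : ZMod (p i))).val < A i + N i) ∧
          Isolated (κ * scale (∏ i, p i : ℕ)) n ∧
          ∀ i, Isolated (κ * scale (∏ i, p i : ℕ)) ((F i).value (n : ZMod (p i))).val := by
  intro r D ε h0 h1
  have hK : (1 : ℝ) ≤ D + 3 := by
    have : (0 : ℝ) ≤ D := Nat.cast_nonneg _
    linarith
  obtain ⟨κ, hκ, Q₀, h⟩ := Pool.Agent.Q46.MH.several r (D + 3) hK ε h0 h1
  obtain ⟨Q₁, hQ₁⟩ := ((tendsto_natCast_atTop_atTop (R := ℝ)).eventually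
    ((tendsto_rpow_atTop h0).eventually_gt_atTop (D : ℝ))).exists_forall_of_atTop
  refine ⟨κ, hκ, max Q₀ Q₁, ?_⟩
  intro p _ hp hpQ F hF A₀ N₀ A N hA0 hA hN0 hN hP
  refine h p hp ((le_max_left _ _).trans hpQ) (fun i => (F i).value) ?_ A₀ N₀ A N hA0 hA hN0 hN hP
  intro i a t ht
  have hs0 : 0 ≤ Real.sqrt (p i) := Real.sqrt_nonneg _
  have hD0 : (0 : ℝ) ≤ D := Nat.cast_nonneg _
  have hDp : D < p i := by
    have h2 := hQ₁ (∏ i, p i) ((le_max_right _ _).trans hpQ)
    have h3 := h2.trans_le (hN i)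
    have h4 : D < N i := by exact_mod_cast h3
    have := hA i
    omega
  have hok := hF i
  cases hj : F i with
  | poly f =>
    rw [hj] at hok
    obtain ⟨h2, h3⟩ := hok
    have h4 := Pool.Agent.Q46.MH.GG_poly f h2 (lt_of_le_of_lt h3 hDp) a t ht
    have h5 : (f.natDegree : ℝ) ≤ D := by exact_mod_cast h3
    exact le_trans h4 (mul_le_mul_of_nonneg_right (by linarith) hs0)
  | inv c =>
    exact le_trans (Pool.Agent.Q46.MH.GG_inv c a t ht) (mul_le_mul_of_nonneg_right (by linarith) hs0)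

end Pool.Agent.Results.MP_f9960f_nt.SeveralPrimeModuli
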