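import Pool.Agent.Q46.MH.Dist

/-!
# Distances between arbitrary sets over prime fields meet record prime gaps

Let `A`, `B` be ARBITRARY sets of vectors with `d` coordinates in the field with `p` elements, `|A| |B| ≥ p^(d + ε)` (and
more for residues in short intervals).  For the pairs `(a, b)` of `A × B` look at the least residue `y` modulo `p` of the
distance `∑ (a_i - b_i)²`, or of `c a·b + f(a) + g(b)` with `c ≠ 0` and ARBITRARY functions `f`, `g` with values in the
field.  At least `|A| |B| p^(-ε)` of the pairs are such that no prime lies at distance at most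
`κ log p (log₂ p)² log₄ p / (log₃ p)²` of `y`; `κ` depends on `ε` only, not on the dimension `d`.  The condition on
`|A| |B|` is the natural one: for `|A| |B| = p^d` the dot products can all be `0`.

Design and proof: helper46 (modules `Pool.Agent.Q46.MH.*`), on the covering criterion for vectors of integers of the
starting repository (`Pool.Agent.Y961.JR.critJ`).
-/

set_option autoImplicit false

open Finset

namespace Pool.Agent.Results.MP_ff81b6_nt.DistancesOverPrimeFields

/-- the record scale `log x (log₂ x)² log₄ x / (log₃ x)²` -/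
noncomputable def scale (x : ℝ) : ℝ :=
  Real.log x * (Real.log (Real.log x)) ^ 2 * Real.log (Real.log (Real.log (Real.log x))) /
    (Real.log (Real.log (Real.log x))) ^ 2

/-- no prime at distance at most `K` of `n` -/
def Isolated (K : ℝ) (n : ℕ) : Prop := ∀ q : ℕ, q.Prime → K < |(q : ℝ) - n|

open Classical in
/-- the number of pairs `z` in `S` for which the least residue `y` of `F z` satisfies `u ≤ y < u + N` and is isolated -/
noncomputable def hits {p : ℕ} {V : Type} (S : Finset (V × V)) (F : V × V → ZMod p) (u N : ℕ) (K : ℝ) : ℕ :=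
  (S.filter (fun z => (u ≤ (F z).val ∧ (F z).val < u + N) ∧ Isolated K (F z).val)).card

/-- Let `0 < ε ≤ 1`. There are `κ > 0` and `p₀` such that for all primes `p ≥ p₀`, all `d`, all sets `A`, `B` of vectors
with `d` coordinates in the field with `p` elements and all intervals `[u, u + N)` in `[0, p)` with `N ≥ p^ε` and
`N² |A| |B| ≥ p^(d + 2 + ε)`:

for all functions `f`, `g` with values in the field and `c ≠ 0` at least `(N / p) |A| |B| p^(-ε)` pairs `(a, b)` in `A × B`
are such that the least residue of `c a·b + f(a) + g(b)` lies in `[u, u + N)` and has no prime at distance at most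
`κ scale p`; and the same holds for the distances `∑ (a_i - b_i)²`.

(For `N = p` the condition is `|A| |B| ≥ p^(d + ε)`.) -/
theorem result : ∀ ε : ℝ, 0 < ε → ε ≤ 1 → ∃ κ : ℝ, 0 < κ ∧ ∃ p₀ : ℕ, ∀ p : ℕ, p₀ ≤ p → p.Prime →
    ∀ (d : ℕ) (A B : Finset (Fin d → ZMod p)) (u N : ℕ), u + N ≤ p → (p : ℝ) ^ ε ≤ N →
      (p : ℝ) ^ (d + 2 + ε) ≤ (N : ℝ) ^ 2 * A.card * B.card →
      (∀ (f g : (Fin d → ZMod p) → ZMod p) (c : ZMod p), c ≠ 0 →
        (N : ℝ) * A.card * B.card / p * (p : ℝ) ^ (-ε) ≤
          hits (A ×ˢ B) (fun z => c * ∑ i, z.1 i * z.2 i + f z.1 + g z.2) u N (κ * scale p)) ∧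
      (N : ℝ) * A.card * B.card / p * (p : ℝ) ^ (-ε) ≤
        hits (A ×ˢ B) (fun z => ∑ i, (z.1 i - z.2 i) ^ 2) u N (κ * scale p) := by
  classical
  intro ε h0 h1
  obtain ⟨κ, hκ, p₀, h⟩ := Pool.Agent.Q46.MH.bilinear ε h0 h1
  refine ⟨κ, hκ, max p₀ 3, ?_⟩
  intro p hp hpp d A B u N hu hN hAB
  have hmain : ∀ (f g : (Fin d → ZMod p) → ZMod p) (c : ZMod p), c ≠ 0 →
        (N : ℝ) * A.card * B.card / p * (p : ℝ) ^ (-ε) ≤
          hits (A ×ˢ B) (fun z => c * ∑ i, z.1 i * z.2 i + f z.1 + g z.2) u N (κ * scale p) := by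
    intro f g c hc
    have key := h p ((le_max_left _ _).trans hp) hpp d A B f g c hc u N hu hN hAB
    refine key.trans (le_of_eq ?_)
    unfold hits Pool.Agent.Q46.MH.good1
    congr 2
    apply filter_congr
    intro z _
    rw [mem_Ico]
    rfl
  refine ⟨hmain, ?_⟩
  have h2 : (-2 : ZMod p) ≠ 0 := by
    have h3 : ¬ (p : ℤ) ∣ 2 := by
      intro hd
      have h5 := Int.le_of_dvd (by norm_num) hd
      have h6 := (le_max_right _ _).trans hp
      omega
    intro h4
    apply h3
    rw [← ZMod.intCast_zmod_eq_zero_iff_dvd]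
    push_cast
    exact neg_eq_zero.1 h4
  have h3 := hmain (fun a => ∑ i, a i * a i) (fun b => ∑ i, b i * b i) (-2) h2
  refine h3.trans (le_of_eq ?_)
  congr 1
  unfold hits
  have h4 : ∀ z : (Fin d → ZMod p) × (Fin d → ZMod p),
      (-2 : ZMod p) * ∑ i, z.1 i * z.2 i + ∑ i, z.1 i * z.1 i + ∑ i, z.2 i * z.2 i =
        ∑ i, (z.1 i - z.2 i) ^ 2 := by
    intro z
    rw [mul_sum, ← sum_add_distrib, ← sum_add_distrib]
    exact sum_congr rfl fun i _ => by ring
  simp only [h4]

end Pool.Agent.Results.MP_ff81b6_nt.DistancesOverPrimeFields
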