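import Pool.Agent.Q46.MH.Config

/-!
# All the distances of `k` points over prime fields meet record prime gaps simultaneously

Let `E_1, ..., E_k` be ARBITRARY sets of vectors with `d` coordinates in the field with `p` elements, with
`|E_i| |E_j| ≥ p^(d + ε)` for `i < j`.  For `(X_1, ..., X_k)` in `E_1 × ... × E_k` look at the `k (k - 1) / 2` distances
`∑_l (X_i(l) - X_j(l))²` modulo `p`.  At least `|E_1| ... |E_k| p^(-ε)` of the configurations are such that NONE of the
least residues of these distances has a prime at distance at most `κ log p (log₂ p)² log₄ p / (log₃ p)²`; the same holds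
with each of the distances in a prescribed short interval.  `κ` depends on `k` and `ε` only, not on the dimension.

Design and proof: helper46 (modules `Pool.Agent.Q46.MH.*`), on the covering criterion for vectors of integers of the
starting repository (`Pool.Agent.Y961.JR.critJ`).
-/

set_option autoImplicit false

open Finset

namespace Pool.Agent.Results.MP_ff81b6_nt.PointConfigurations

/-- the record scale `log x (log₂ x)² log₄ x / (log₃ x)²` -/
noncomputable def scale (x : ℝ) : ℝ :=
  Real.log x * (Real.log (Real.log x)) ^ 2 * Real.log (Real.log (Real.log (Real.log x))) /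
    (Real.log (Real.log (Real.log x))) ^ 2

/-- no prime at distance at most `K` of `n` -/
def Isolated (K : ℝ) (n : ℕ) : Prop := ∀ q : ℕ, q.Prime → K < |(q : ℝ) - n|

/-- the pairs `i < j` of indices -/
abbrev Pairs (k : ℕ) : Type := {z : Fin k × Fin k // z.1 < z.2}

/-- the distance of two vectors, an element of the field with `p` elements -/
def dist {p d : ℕ} (x y : Fin d → ZMod p) : ZMod p := ∑ l, (x l - y l) ^ 2

open Classical in
/-- the number of `X` in `E_1 × ... × E_k` such that for all `i < j` the least residue `y` of the distance of `X_i` and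
`X_j` satisfies `u i j ≤ y < u i j + N i j` and is isolated -/
noncomputable def hits {p k d : ℕ} (E : Fin k → Finset (Fin d → ZMod p)) (u N : Pairs k → ℕ) (K : ℝ) : ℕ :=
  ((Fintype.piFinset E).filter (fun X => ∀ z : Pairs k,
    (u z ≤ (dist (X z.1.1) (X z.1.2)).val ∧ (dist (X z.1.1) (X z.1.2)).val < u z + N z) ∧
      Isolated K (dist (X z.1.1) (X z.1.2)).val)).card

/-- Let `k ≥ 2` and `0 < ε ≤ 1`. There are `κ > 0` and `p₀` such that for all primes `p ≥ p₀`, all `d`, all sets
`E_1, ..., E_k` of vectors with `d` coordinates in the field with `p` elements, and all intervals `[u z, u z + N z)` in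
`[0, p)`, one for each pair `z = (i, j)` with `i < j`, with `N z ≥ p^ε` and, for `W = ∏_z (N z / p)`,
`W² |E_i| |E_j| ≥ p^(d + ε)` for all `i < j`:

at least `W |E_1| ... |E_k| p^(-ε)` of the `X` in `E_1 × ... × E_k` are such that for all `i < j` the least residue of
the distance of `X_i` and `X_j` lies in `[u z, u z + N z)` and has no prime at distance at most `κ scale p`.

(For `N z = p` the condition is `|E_i| |E_j| ≥ p^(d + ε)`.) -/
theorem result : ∀ k : ℕ, 2 ≤ k → ∀ ε : ℝ, 0 < ε → ε ≤ 1 → ∃ κ : ℝ, 0 < κ ∧ ∃ p₀ : ℕ, ∀ p : ℕ, p₀ ≤ p → p.Prime →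
    ∀ (d : ℕ) (E : Fin k → Finset (Fin d → ZMod p)) (u N : Pairs k → ℕ),
      (∀ z, u z + N z ≤ p) → (∀ z, (p : ℝ) ^ ε ≤ N z) →
      (∀ z : Pairs k, (p : ℝ) ^ (d + ε) ≤
        (∏ w : Pairs k, (N w : ℝ) / p) ^ 2 * (E z.1.1).card * (E z.1.2).card) →
      (∏ w : Pairs k, (N w : ℝ) / p) * (∏ i, ((E i).card : ℝ)) * (p : ℝ) ^ (-ε) ≤ hits E u N (κ * scale p) := by
  intro k hk ε h0 h1
  exact Pool.Agent.Q46.MH.configs k hk ε h0 h1

end Pool.Agent.Results.MP_ff81b6_nt.PointConfigurations
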